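import Pool.Agent.P.MP_7a8567_an.ND.NE

set_option autoImplicit false

/-!
(ND), elliptic case.
-/

namespace Ivrii.ND

open Polynomial

variable {k K : Type} [Field k] [Field K] [Algebra k K]

/-- residues of two congruent pairs -/
lemma res_ex (O : ValuationSubring K) (hk : ∀ a : k, algebraMap k K a ∈ O) {t1 t2 Z1 Z2 : K}
    (h1 : t1 ∈ O) (h2 : t1 - t2 ∈ O.nonunits) (h3 : Z1 ∈ O) (h4 : Z1 - Z2 ∈ O.nonunits) :
    ∃ (L : Type) (_ : Field L) (_ : Algebra k L) (t Z : L), ∀ p : MvPolynomial (Fin 4) k,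
      MvPolynomial.aeval ![t1, t2, Z1, Z2] p = 0 → MvPolynomial.aeval ![t, t, Z, Z] p = 0 := by
  have h5 : t2 ∈ O := by simpa using O.sub_mem h1 (O.nonunits_le h2)
  have h6 : Z2 ∈ O := by simpa using O.sub_mem h3 (O.nonunits_le h4)
  let φ : k →+* O := (algebraMap k K).codRestrict O.toSubring hk
  let ρ := IsLocalRing.residue O
  have hρ : ∀ a b : O, (a : K) - b ∈ O.nonunits → ρ a = ρ b := fun a b h => by
    rw [← sub_eq_zero, ← map_sub, IsLocalRing.residue_eq_zero_iff,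
      ← ValuationSubring.coe_mem_nonunits_iff]
    exact h
  refine ⟨_, inferInstance, (ρ.comp φ).toAlgebra, ρ ⟨t1, h1⟩, ρ ⟨Z1, h3⟩, fun p hp => ?_⟩
  have h7 : MvPolynomial.eval₂ φ ![⟨t1, h1⟩, ⟨t2, h5⟩, ⟨Z1, h3⟩, ⟨Z2, h6⟩] p = 0 := by
    apply O.subtype_injective
    rw [MvPolynomial.eval₂_comp_left, map_zero, ← hp, MvPolynomial.aeval_def]
    congr 1
    ext i; fin_cases i <;> rfl
  have h8 := congrArg ρ h7
  rw [MvPolynomial.eval₂_comp_left, map_zero] at h8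
  rw [← h8]
  change MvPolynomial.eval₂ (ρ.comp φ) _ p = _
  congr 1
  ext i; fin_cases i
  · rfl
  · exact hρ _ _ h2
  · rfl
  · exact hρ _ _ h4

lemma sep_quartic [IsAlgClosed k] [CharZero k] {a c b : k} (ha : a ≠ 0) (hb : b ≠ 0)
    (hc : c ^ 2 ≠ 4 * a * b) : (C a + C c * X ^ 2 + C b * X ^ 4 : k[X]).Separable ∧
      (C a + C c * X ^ 2 + C b * X ^ 4 : k[X]).natDegree = 4 := by
  refine ⟨?_, by compute_degree!⟩
  rw [separable_def, isCoprime_iff_aeval_ne_zero_of_isAlgClosed k k]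
  intro x
  by_contra h
  simp only [not_or, not_not, map_add, map_mul, aeval_C, aeval_X, map_pow, derivative_C,
    derivative_mul, derivative_X_pow, Algebra.algebraMap_self, RingHom.id_apply, zero_mul,
    zero_add, map_natCast] at h
  obtain ⟨h1, h2⟩ := h
  have hx : x ≠ 0 := by rintro rfl; exact ha (by simpa using h1)
  have h3 : c + 2 * b * x ^ 2 = 0 := by
    have : 2 * x * (c + 2 * b * x ^ 2) = 0 := by push_cast at h2; linear_combination h2
    simpa [hx] using this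
  exact hc (by linear_combination (c + 2 * b * x ^ 2) * h3 - 4 * b * h1)

theorem nd_ell [IsAlgClosed k] [CharZero k] (td : TD1 k K) (D : Derivation k K K)
    (hD : ∀ x, D x = 0 → ∃ a, algebraMap k K a = x) (O : ValuationSubring K)
    (hk : ∀ a : k, algebraMap k K a ∈ O) {A B c : k} (hA : A ≠ 0) (hB : B ≠ 0)
    (hc : c ^ 2 ≠ 4 * A * B) {t1 P1 t2 P2 f : K} (ht1 : t1 ≠ 0) (ht2 : t2 ≠ 0)
    (h1 : P1 ^ 2 + algebraMap k K B * t1 ^ 2 + algebraMap k K A / t1 ^ 2 = algebraMap k K c)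
    (h2 : P2 ^ 2 + algebraMap k K B * t2 ^ 2 + algebraMap k K A / t2 ^ 2 = algebraMap k K c)
    (hd1 : D t1 ≠ 0) (hd2 : D t2 ≠ 0) (hex : P2 * D t2 / t2 - P1 * D t1 / t1 = D f)
    (r1 : t1 ∈ O) (r2 : t1 - t2 ∈ O.nonunits) (r3 : t1 * P1 ∈ O → t1 * P1 - t2 * P2 ∈ O.nonunits) :
    t2 = t1 ∧ P2 = P1 := by
  have : CharZero K := charZero_of_injective_algebraMap (algebraMap k K).injective
  obtain ⟨Z1, rfl⟩ : ∃ Z1, P1 = Z1 / t1 := ⟨t1 * P1, by field_simp⟩
  obtain ⟨Z2, rfl⟩ : ∃ Z2, P2 = Z2 / t2 := ⟨t2 * P2, by field_simp⟩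
  rw [mul_div_cancel₀ _ ht1, mul_div_cancel₀ _ ht2] at r3
  set a := algebraMap k K A with ha
  set b := algebraMap k K B with hb
  set g := algebraMap k K c with hg
  have Da : D a = 0 := D.map_algebraMap A
  have Db : D b = 0 := D.map_algebraMap B
  have Dg : D g = 0 := D.map_algebraMap c
  have e1 : Z1 ^ 2 = -a + g * t1 ^ 2 - b * t1 ^ 4 := by field_simp at h1; linear_combination h1
  have e2 : Z2 ^ 2 = -a + g * t2 ^ 2 - b * t2 ^ 4 := by field_simp at h2; linear_combination h2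
  obtain ⟨hs, hs4⟩ := sep_quartic (neg_ne_zero.2 hA) (neg_ne_zero.2 hB) (c := c) (by simpa using hc)
  have hR : ∀ t Z : K, Z ^ 2 = -a + g * t ^ 2 - b * t ^ 4 →
      Z ^ 2 = aeval t (C (-A) + C c * X ^ 2 + C (-B) * X ^ 4 : k[X]) := fun t Z h => by
    simp only [map_add, map_mul, aeval_C, map_pow, aeval_X, map_neg, h, ← ha, ← hb, ← hg]; ring
  have hZ : ∀ t Z : K, Z ^ 2 = -a + g * t ^ 2 - b * t ^ 4 → D t ≠ 0 →
      Z ≠ 0 ∧ D Z = (g * t - 2 * b * t ^ 3) * D t / Z := fun t Z h hd => by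
    have h0 : Z ≠ 0 := fun h0 => transc_of_der D hd
      ⟨_, hs.ne_zero, by rw [← hR t Z h, h0]; simp⟩
    refine ⟨h0, ?_⟩
    have := congrArg D h
    simp only [map_add, map_sub, map_neg, Derivation.leibniz, Derivation.leibniz_pow, Da, Db, Dg,
      smul_eq_mul, nsmul_eq_mul] at this
    field_simp
    push_cast at this
    linear_combination this / 2
  obtain ⟨hZ1, dZ1⟩ := hZ _ _ e1 hd1
  obtain ⟨hZ2, dZ2⟩ := hZ _ _ e2 hd2
  have r4 : Z1 ∈ O := by
    rcases O.mem_or_inv_mem Z1 with h | h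
    · exact h
    · rw [show Z1 = (-a + g * t1 ^ 2 - b * t1 ^ 4) * Z1⁻¹ by rw [← e1]; field_simp]
      exact mul_mem (sub_mem (add_mem (neg_mem (hk A)) (mul_mem (hk c) (pow_mem r1 2)))
        (mul_mem (hk B) (pow_mem r1 4))) h
  obtain ⟨L, _, _, t, Z, hL⟩ := res_ex O hk r1 r2 r4 (r3 r4)
  have : CharZero L := charZero_of_injective_algebraMap (algebraMap k L).injective
  have hA' : algebraMap k L A ≠ 0 := (_root_.map_ne_zero _).2 hA
  have l1 : Z ^ 2 = -algebraMap k L A + algebraMap k L c * t ^ 2 - algebraMap k L B * t ^ 4 := by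
    have := hL (.X 2 ^ 2 - (-.C A + .C c * .X 0 ^ 2 - .C B * .X 0 ^ 4))
      (by simpa [sub_eq_zero] using e1)
    simpa [sub_eq_zero] using this
  have l2 : algebraMap k L A = algebraMap k L B * t ^ 4 → t * Z ≠ 0 := fun h h0 => by
    have ht : t ≠ 0 := by rintro rfl; exact hA' (by simpa using h)
    have hz : Z = 0 := by simpa [ht] using h0
    refine hc ((algebraMap k L).injective (mul_left_cancel₀ hA' ?_))
    simp only [map_mul, map_pow, map_ofNat]
    rw [hz] at l1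
    have h5 : algebraMap k L c * t ^ 2 = 2 * algebraMap k L A := by linear_combination -l1 - h
    linear_combination (algebraMap k L c) ^ 2 * h +
      algebraMap k L B * (algebraMap k L c * t ^ 2 + 2 * algebraMap k L A) * h5
  have hN : ∀ {u v : k}, v ≠ 0 → (C u + C v * X ^ 2 : k[X]) ≠ 0 := fun {u v} hv h => by
    have := congrArg (coeff · 2) h
    simp [hv] at this
  by_cases hE : a - b * t1 ^ 2 * t2 ^ 2 = 0
  · exfalso
    have l3 := l2 (by
      have := hL (.C A - .C B * .X 0 ^ 2 * .X 1 ^ 2) (by simpa using hE)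
      simp [sub_eq_zero] at this
      linear_combination this)
    have h3 : (t2 * Z1 - t1 * Z2) * (t1 * Z2 + t2 * Z1) = 0 := by
      linear_combination t2 ^ 2 * e1 - t1 ^ 2 * e2 + (t1 ^ 2 - t2 ^ 2) * hE
    rcases mul_eq_zero.1 h3 with h4 | h4
    · have h5 := congrArg D hE
      simp only [map_sub, Derivation.leibniz, Derivation.leibniz_pow, Da, Db, smul_eq_mul,
        nsmul_eq_mul, map_zero] at h5
      have h6 : t2 * D t1 + t1 * D t2 = 0 := by
        have : b * t1 * t2 * 2 * (t2 * D t1 + t1 * D t2) = 0 := by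
          push_cast at h5; linear_combination -h5
        simpa [ht1, ht2, hb, hB] using this
      have h7 : D t2 = -t2 * D t1 / t1 := by field_simp; linear_combination h6
      have h8 : Z2 = t2 * Z1 / t1 := by field_simp; linear_combination -h4
      refine hd1 (ne_exact td D hs hs4 (hN (u := 2 * c) (v := -4 * B) (by simpa using hB))
        (by compute_degree) (hR _ _ e1) (f := Z1 / t1 + Z1 / t1 - f) ?_)
      rw [map_sub, map_add, ← hex, Derivation.leibniz_div, dZ1, h7, h8]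
      simp only [map_add, map_mul, aeval_C, map_pow, aeval_X, map_neg, map_ofNat, smul_eq_mul,
        ← hb, ← hg]
      field_simp
      ring
    · have := hL (.X 0 * .X 3 + .X 1 * .X 2) (by simpa using h4)
      simp at this
      exact l3 (mul_eq_zero.2 this)
  obtain ⟨h, hh⟩ : ∃ h, h * (a - b * t1 ^ 2 * t2 ^ 2) = t2 * Z1 - t1 * Z2 :=
    ⟨_, div_mul_cancel₀ _ hE⟩
  obtain ⟨m, hm⟩ : ∃ m, m * (a - b * t1 ^ 2 * t2 ^ 2) ^ 2 = -((a + b * t1 ^ 2 * t2 ^ 2) *
      (Z1 * Z2 - g * t1 * t2) + 2 * a * b * t1 * t2 * (t1 ^ 2 + t2 ^ 2)) :=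
    ⟨_, div_mul_cancel₀ _ (pow_ne_zero 2 hE)⟩
  set E := a - b * t1 ^ 2 * t2 ^ 2 with hEE
  have i0 : m ^ 2 = 1 + g * h ^ 2 + a * b * h ^ 4 := by
    refine mul_right_cancel₀ (pow_ne_zero 4 hE) ?_
    have : (m * E ^ 2) ^ 2 = E ^ 4 + g * (h * E) ^ 2 * E ^ 2 + a * b * (h * E) ^ 4 := by
      rw [hh, hm, hEE]
      linear_combination (Z2^2*a^2 - t2^2*a^2*g + t2^4*a^2*b - t2^4*Z1^2*a*b +
        4*t1*t2^3*Z1*Z2*a*b - 4*t1^2*t2^2*Z2^2*a*b + t1^2*t2^4*a*b*g + t1^4*t2^4*a*b^2 +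
        t1^4*t2^4*Z2^2*b^2 - t1^4*t2^6*b^2*g) * e1 + (-a^3 + 4*t1^2*t2^2*a^2*b +
        4*t1^3*t2*Z1*Z2*a*b - t1^4*Z2^2*a*b - 3*t1^4*t2^2*a*b*g + 4*t1^6*t2^2*a*b^2 -
        t1^8*t2^4*b^3) * e2
    linear_combination this
  have i1 : t1 ^ 2 + a * h ^ 2 = m * t1 * t2 + h * t2 * Z1 := by
    refine mul_right_cancel₀ (pow_ne_zero 2 hE) ?_
    have : t1 ^ 2 * E ^ 2 + a * (h * E) ^ 2 = m * E ^ 2 * t1 * t2 + h * E * E * t2 * Z1 := by
      rw [hh, hm, hEE]
      linear_combination t1^2*t2^4*b * e1 + t1^2*a * e2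
    linear_combination this
  have i2 : t2 ^ 2 + a * h ^ 2 = m * t1 * t2 - h * t1 * Z2 := by
    refine mul_right_cancel₀ (pow_ne_zero 2 hE) ?_
    have : t2 ^ 2 * E ^ 2 + a * (h * E) ^ 2 = m * E ^ 2 * t1 * t2 - h * E * E * t1 * Z2 := by
      rw [hh, hm, hEE]
      linear_combination t2^2*a * e1 + t1^4*t2^2*b * e2
    linear_combination this
  have i3 : h * (t1 * Z2 + t2 * Z1) = t1 ^ 2 - t2 ^ 2 := by linear_combination i2 - i1
  have dh : D h = m * (D t1 / Z1 - D t2 / Z2) := by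
    have h5 := congrArg D hh
    have h7 : D E = -(2 * b * t1 * t2 * (t2 * D t1 + t1 * D t2)) := by
      simp only [hEE, map_sub, Derivation.leibniz, Derivation.leibniz_pow, Da, Db, smul_eq_mul,
        nsmul_eq_mul]
      push_cast
      ring
    simp only [map_sub, Derivation.leibniz, smul_eq_mul, dZ1, dZ2, h7] at h5
    refine mul_right_cancel₀ (pow_ne_zero 2 hE) ?_
    have h6 : D h * E ^ 2 = E * (t2 * ((g * t1 - 2 * b * t1 ^ 3) * D t1 / Z1) + Z1 * D t2 -
        (t1 * ((g * t2 - 2 * b * t2 ^ 3) * D t2 / Z2) + Z2 * D t1)) +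
        2 * b * t1 * t2 * (h * E) * (t2 * D t1 + t1 * D t2) := by linear_combination E * h5
    rw [h6, hh, mul_right_comm m, hm, hEE]
    field_simp
    linear_combination (2 * b * t1 * t2 ^ 3 * Z2 * D t1) * e1 - (2 * b * t1 ^ 3 * t2 * Z1 * D t2) * e2
  obtain ⟨hs', hs4'⟩ := sep_quartic one_ne_zero (mul_ne_zero hA hB) (c := c)
    (by simpa [mul_assoc] using hc)
  have dh0 : D h = 0 := by
    refine ne_exact td D hs' hs4' (hN (u := -c) (v := -2 * (A * B)) (by simp [hA, hB]))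
      (by compute_degree) (y := m) (f := f - (Z1 / t1 - Z2 / t2) - (b + b) * (h * t1 * t2))
      (by simp only [map_add, map_mul, aeval_C, map_pow, aeval_X, map_one, ← ha, ← hb, ← hg, i0]) ?_
    have h9 : D (f - (Z1 / t1 - Z2 / t2) - (b + b) * (h * t1 * t2)) =
        -(g + 2 * a * b * h ^ 2) * (D t1 / Z1 - D t2 / Z2) := by
      simp only [map_sub, map_add, ← hex, Derivation.leibniz, Derivation.leibniz_div, dZ1, dZ2, Db,
        dh, smul_eq_mul]
      field_simp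
      linear_combination (2 * b * t1 ^ 2 * t2 ^ 2 * Z2 * D t1) * i1 -
        (2 * b * t1 ^ 2 * t2 ^ 2 * Z1 * D t2) * i2
    rw [h9, dh]
    simp only [map_add, map_mul, aeval_C, map_pow, aeval_X, map_neg, map_ofNat, ← ha, ← hb, ← hg]
    ring
  obtain ⟨h0, rfl⟩ := hD h dh0
  have hh0 : h0 = 0 := by
    by_contra h00
    have l4 := hL (.C h0 * (.C A - .C B * .X 0 ^ 2 * .X 1 ^ 2) - (.X 1 * .X 2 - .X 0 * .X 3))
      (by simpa [sub_eq_zero] using hh)
    have l5 := hL (.C h0 * (.X 0 * .X 3 + .X 1 * .X 2) - (.X 0 ^ 2 - .X 1 ^ 2))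
      (by simpa [sub_eq_zero] using i3)
    simp [h00] at l4 l5
    exact l2 (by linear_combination l4) (mul_eq_zero.2 l5)
  rw [hh0, map_zero, zero_mul] at hh i3
  have h3 : (t2 - t1) * (t1 + t2) = 0 := by linear_combination i3
  rcases mul_eq_zero.1 h3 with h4 | h4
  · rw [sub_eq_zero] at h4
    refine ⟨h4, ?_⟩
    field_simp
    linear_combination hh
  · exfalso
    have h5 : Z1 + Z2 = 0 := mul_left_cancel₀ ht1 (by linear_combination hh + Z1 * h4)
    have l4 := hL (.X 0 + .X 1) (by simpa using h4)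
    have l5 := hL (.X 2 + .X 3) (by simpa using h5)
    simp at l4 l5
    rw [l4, l5] at l1
    exact hA' (by simpa using l1)

end Ivrii.ND
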