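import Pool.Agent.P.MP_7a8567_an.ND.Ell
import Pool.Agent.P.MP_7a8567_an.Defs

set_option autoImplicit false

/-!
(ND) at the level of points: two lines on one nondegenerate level of `J'`, with equal values of `J`,
exact difference of the action forms and equal residues, differ by an isometry preserving `J`.
-/

namespace Ivrii.ND

open Polynomial

variable {k K : Type} [Field k] [Field K] [Algebra k K]

/-- `(t, P) ↦ (κ t, P + α t + β / t)` -/
def sA (κ α β : k) (l : K × K) : K × K :=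
  (algebraMap k K κ * l.1, l.2 + algebraMap k K α * l.1 + algebraMap k K β / l.1)

/-- `(t, P) ↦ (κ / t, -P + α t + β / t)` -/
def sB (κ α β : k) (l : K × K) : K × K :=
  (algebraMap k K κ / l.1, -l.2 + algebraMap k K α * l.1 + algebraMap k K β / l.1)

/-- `l2` is the image of `l1` under an isometry preserving `J` -/
def Iso (J : QF k) (l1 l2 : K × K) : Prop := ∃ κ α β : k, κ ≠ 0 ∧
  ((l2 = sA κ α β l1 ∧ ∀ (M : Type) [Field M] [Algebra k M] (l : M × M), l.1 ≠ 0 →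
      J.val (sA κ α β l) = J.val l) ∨
    (l2 = sB κ α β l1 ∧ ∀ (M : Type) [Field M] [Algebra k M] (l : M × M), l.1 ≠ 0 →
      J.val (sB κ α β l) = J.val l))

/-- equal residues of `(t, t P)` -/
def Near (O : ValuationSubring K) (l1 l2 : K × K) : Prop :=
  l1.1 ∈ O ∧ l1.1 - l2.1 ∈ O.nonunits ∧ (l1.1 * l1.2 ∈ O → l1.1 * l1.2 - l2.1 * l2.2 ∈ O.nonunits)

/-- four times the determinant of the form `J - c` -/
def lvD (J : QF k) (c : k) : k :=
  4 * J.A * J.B * J.c0 + (J.c1 - c) * J.b1 * J.b2 - J.A * J.b1 ^ 2 - J.B * J.b2 ^ 2 -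
    J.c0 * (J.c1 - c) ^ 2

/-- consequence of reality -/
def Re (J : QF k) : Prop := (J.c0 = 0 → J.b1 ≠ 0 ∧ J.b2 ≠ 0) ∧
  (J.c0 ≠ 0 → (4 * J.c0 * J.A = J.b2 ^ 2 ↔ 4 * J.c0 * J.B = J.b1 ^ 2))

/-- `J` in the coordinate `P + μ t + ν / t` -/
def shift (J : QF k) (μ ν : k) : QF k :=
  ⟨J.c0, J.b1 - 2 * J.c0 * μ, J.b2 - 2 * J.c0 * ν, J.B - J.b1 * μ + J.c0 * μ ^ 2,
    J.c1 - J.b1 * ν - J.b2 * μ + 2 * J.c0 * μ * ν, J.A - J.b2 * ν + J.c0 * ν ^ 2⟩

lemma shift_val (J : QF k) (μ ν : k) {l : K × K} (h : l.1 ≠ 0) :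
    (shift J μ ν).val (sA 1 μ ν l) = J.val l := by
  simp only [shift, QF.val, sA, map_add, map_sub, map_mul, map_pow, map_ofNat, map_one]
  field_simp
  ring

lemma five {u : K} (hu : Transcendental k u) {a0 a1 a2 a3 a4 : k}
    (h : algebraMap k K a0 + algebraMap k K a1 * u + algebraMap k K a2 * u ^ 2 +
      algebraMap k K a3 * u ^ 3 + algebraMap k K a4 * u ^ 4 = 0) :
    a0 = 0 ∧ a1 = 0 ∧ a2 = 0 ∧ a3 = 0 ∧ a4 = 0 := by
  have h1 : (C a0 + C a1 * X + C a2 * X ^ 2 + C a3 * X ^ 3 + C a4 * X ^ 4 : k[X]) = 0 :=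
    transcendental_iff.1 hu _ (by simpa using h)
  refine ⟨?_, ?_, ?_, ?_, ?_⟩
  · simpa using congrArg (coeff · 0) h1
  · simpa [coeff_X, coeff_C] using congrArg (coeff · 1) h1
  · simpa [coeff_X, coeff_C] using congrArg (coeff · 2) h1
  · simpa [coeff_X, coeff_C] using congrArg (coeff · 3) h1
  · simpa [coeff_X, coeff_C] using congrArg (coeff · 4) h1

lemma der_val (D : Derivation k K K) (J : QF k) {l : K × K} (h1 : D l.1 = 0) (h2 : D l.2 = 0) :
    D (J.val l) = 0 := by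
  simp [QF.val, Derivation.leibniz, Derivation.leibniz_div, Derivation.leibniz_pow, h1, h2]

lemma iso_refl (J : QF k) (l : K × K) : Iso J l l :=
  ⟨1, 0, 0, one_ne_zero, Or.inl ⟨by simp [sA], fun M _ _ l _ => by simp [sA]⟩⟩

lemma iso_shift (J : QF k) (μ ν : k) {l1 l2 : K × K} (h1 : l1.1 ≠ 0)
    (h : Iso (shift J μ ν) (sA 1 μ ν l1) (sA 1 μ ν l2)) : Iso J l1 l2 := by
  obtain ⟨κ, α, β, hκ, ⟨h2, h3⟩ | ⟨h2, h3⟩⟩ := h
  · have key : ∀ (M : Type) [Field M] [Algebra k M] (l : M × M), l.1 ≠ 0 →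
        sA 1 μ ν (sA κ (α + μ - μ * κ) (β + ν - ν / κ) l) = sA κ α β (sA 1 μ ν l) := by
      intro M _ _ l hl
      have := (_root_.map_ne_zero (algebraMap k M)).2 hκ
      simp only [sA, map_add, map_sub, map_mul, map_div₀, map_one, one_mul, Prod.mk.injEq, true_and]
      field_simp
      ring
    refine ⟨κ, α + μ - μ * κ, β + ν - ν / κ, hκ, Or.inl ⟨?_, fun M _ _ l hl => ?_⟩⟩
    · rw [← key K l1 h1] at h2
      simp only [sA, map_one, one_mul, Prod.mk.injEq] at h2 ⊢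
      exact Prod.ext h2.1 (by rw [h2.1] at h2; linear_combination h2.2)
    · rw [← shift_val J μ ν hl, ← h3 M _ (by simpa [sA] using hl), ← key M l hl, shift_val]
      exact mul_ne_zero ((_root_.map_ne_zero _).2 hκ) hl
  · have key : ∀ (M : Type) [Field M] [Algebra k M] (l : M × M), l.1 ≠ 0 →
        sA 1 μ ν (sB κ (α - μ - ν / κ) (β - ν - μ * κ) l) = sB κ α β (sA 1 μ ν l) := by
      intro M _ _ l hl
      have := (_root_.map_ne_zero (algebraMap k M)).2 hκ
      simp only [sA, sB, map_sub, map_mul, map_div₀, map_one, one_mul, Prod.mk.injEq, true_and]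
      field_simp
      ring
    refine ⟨κ, α - μ - ν / κ, β - ν - μ * κ, hκ, Or.inr ⟨?_, fun M _ _ l hl => ?_⟩⟩
    · rw [← key K l1 h1] at h2
      simp only [sA, sB, map_one, one_mul, Prod.mk.injEq] at h2 ⊢
      exact Prod.ext h2.1 (by rw [h2.1] at h2; linear_combination h2.2)
    · rw [← shift_val J μ ν hl, ← h3 M _ (by simpa [sA] using hl), ← key M l hl, shift_val]
      exact div_ne_zero ((_root_.map_ne_zero _).2 hκ) hl

lemma isoB (J : QF k) {κ : k} (hκ : κ ≠ 0) (h1 : J.b2 + κ * J.b1 = 0) (h2 : J.A = κ ^ 2 * J.B)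
    (t P : K) : Iso J (t, P) (algebraMap k K κ / t, -P) := by
  refine ⟨κ, 0, 0, hκ, Or.inr ⟨by simp [sB], fun M _ _ l hl => ?_⟩⟩
  have := (_root_.map_ne_zero (algebraMap k M)).2 hκ
  rw [← eq_neg_iff_add_eq_zero] at h1
  simp only [sB, QF.val, h1, h2, map_zero, map_neg, map_mul, map_pow]
  field_simp
  ring

lemma relB (J : QF k) {κ : k} (hκ : κ ≠ 0) {t P : K} (ht : Transcendental k t)
    (h : J.val (algebraMap k K κ / t, -P) = J.val (t, P)) :
    algebraMap k K (κ * (J.b2 + κ * J.b1)) * P * t =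
      algebraMap k K (J.A - κ ^ 2 * J.B) * (t ^ 2 - algebraMap k K κ) := by
  have h0 := (_root_.map_ne_zero (algebraMap k K)).2 hκ
  have h1 : t ≠ 0 := fun h1 => ht (h1 ▸ isAlgebraic_zero)
  have h2 : t ^ 2 + algebraMap k K κ ≠ 0 := fun h2 =>
    hκ (five ht (a1 := 0) (a2 := 1) (a3 := 0) (a4 := 0) (by simp; linear_combination h2)).1
  refine mul_left_cancel₀ h2 ?_
  simp only [QF.val, map_add, map_sub, map_mul, map_pow] at h ⊢
  field_simp at h
  linear_combination -h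

theorem nd_circ [IsAlgClosed k] [CharZero k] (td : TD1 k K) (D : Derivation k K K)
    (hD : ∀ x, D x = 0 → ∃ a, algebraMap k K a = x) (J : QF k) {c : k} (hc : c ≠ 0)
    {t1 P1 t2 P2 f : K} (ht2 : t2 ≠ 0) (h1 : P1 ^ 2 = algebraMap k K c)
    (h2 : P2 ^ 2 = algebraMap k K c) (hd1 : D t1 ≠ 0)
    (hex : P2 * D t2 / t2 - P1 * D t1 / t1 = D f) (hJ : J.val (t2, P2) = J.val (t1, P1)) :
    Iso J (t1, P1) (t2, P2) := by
  have : CharZero K := charZero_of_injective_algebraMap (algebraMap k K).injective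
  have ht := transc_of_der D hd1
  have ht1 : t1 ≠ 0 := fun h => hd1 (by rw [h, map_zero])
  have hP : P1 ≠ 0 := fun h => hc ((algebraMap k K).injective (by rw [← h1, h]; simp))
  have dP : D P1 = 0 := by
    have := congrArg D h1
    simpa [Derivation.leibniz_pow, hP] using this
  obtain ⟨r, rfl⟩ := hD P1 dP
  have hr : r ≠ 0 := fun h => hP (by rw [h, map_zero])
  rcases sq_eq_sq_iff_eq_or_eq_neg.1 (h2.trans h1.symm) with rfl | rfl
  · obtain ⟨κ, hκ⟩ := hD (t2 / t1) (dlog td D (f := f / algebraMap k K r) (by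
      rw [Derivation.leibniz_div, Derivation.leibniz_div_const _ _ _ dP, ← hex]
      simp only [smul_eq_mul]
      field_simp))
    have hκ0 : κ ≠ 0 := fun h => div_ne_zero ht2 ht1 (by rw [← hκ, h, map_zero])
    have h0 := (_root_.map_ne_zero (algebraMap k K)).2 hκ0
    obtain rfl : t2 = algebraMap k K κ * t1 := by rw [hκ]; field_simp
    obtain ⟨e0, e1, -, e3, e4⟩ := five ht (a0 := J.A * (1 - κ ^ 2)) (a1 := r * κ * (J.b2 * (1 - κ)))
      (a2 := 0) (a3 := r * κ ^ 2 * (J.b1 * (κ - 1))) (a4 := κ ^ 2 * (J.B * (κ ^ 2 - 1))) (by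
        simp only [QF.val, map_sub, map_mul, map_pow, map_one, map_zero] at hJ ⊢
        field_simp at hJ
        linear_combination hJ)
    refine ⟨κ, 0, 0, hκ0, Or.inl ⟨by simp [sA], fun M _ _ l hl => ?_⟩⟩
    have := (_root_.map_ne_zero (algebraMap k M)).2 hκ0
    have f0 := congrArg (algebraMap k M) e0
    have f1 := congrArg (algebraMap k M) ((mul_eq_zero.1 e1).resolve_left (mul_ne_zero hr hκ0))
    have f3 := congrArg (algebraMap k M)
      ((mul_eq_zero.1 e3).resolve_left (mul_ne_zero hr (pow_ne_zero 2 hκ0)))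
    have f4 := congrArg (algebraMap k M) ((mul_eq_zero.1 e4).resolve_left (pow_ne_zero 2 hκ0))
    simp only [sA, QF.val, map_zero, map_sub, map_mul, map_pow, map_one] at f0 f1 f3 f4 ⊢
    field_simp
    linear_combination f0 + algebraMap k M κ * l.1 * l.2 * f1 +
      algebraMap k M κ ^ 2 * l.1 ^ 3 * l.2 * f3 + algebraMap k M κ ^ 2 * l.1 ^ 4 * f4
  · obtain ⟨κ, hκ⟩ := hD (t2 * t1) (dlog td D (f := -f / algebraMap k K r) (by
      rw [Derivation.leibniz, Derivation.leibniz_div_const _ _ _ dP, map_neg, ← hex]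
      simp only [smul_eq_mul]
      field_simp
      ring))
    have hκ0 : κ ≠ 0 := fun h => mul_ne_zero ht2 ht1 (by rw [← hκ, h, map_zero])
    obtain rfl : t2 = algebraMap k K κ / t1 := by rw [hκ]; field_simp
    have h3 := relB J hκ0 ht hJ
    obtain ⟨-, e1, e2, -⟩ := five ht (a0 := κ * (J.A - κ ^ 2 * J.B))
      (a1 := r * κ * (J.b2 + κ * J.b1)) (a2 := -(J.A - κ ^ 2 * J.B)) (a3 := 0) (a4 := 0) (by
        simp only [map_mul, map_neg, map_zero] at h3 ⊢
        linear_combination h3)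
    exact isoB J hκ0 ((mul_eq_zero.1 e1).resolve_left (mul_ne_zero hr hκ0))
      (by linear_combination -e2) _ _

/-- numerator of `J` along a parabola family level -/
def nm {R : Type} [CommRing R] (a b1 b2 B c A H : R) : R :=
  a * (1 - H ^ 2) ^ 4 + H * (1 - H ^ 2) ^ 2 * (b1 * (1 + H) ^ 2 + b2 * (1 - H) ^ 2) +
    B * H ^ 2 * (1 + H) ^ 4 + c * H ^ 2 * (1 - H ^ 2) ^ 2 + A * H ^ 2 * (1 - H) ^ 4

lemma nm_inv [CharZero k] {H : K} (hH : Transcendental k H) {a b1 b2 B c A κ : k} (hκ : κ ≠ 0)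
    (hκ2 : κ ^ 2 ≠ 1)
    (h : nm (algebraMap k K a) (algebraMap k K b1) (algebraMap k K b2) (algebraMap k K B)
      (algebraMap k K c) (algebraMap k K A) H * algebraMap k K κ ^ 2 *
        (1 - (algebraMap k K κ * H) ^ 2) ^ 2 =
      nm (algebraMap k K a) (algebraMap k K b1) (algebraMap k K b2) (algebraMap k K B)
      (algebraMap k K c) (algebraMap k K A) (algebraMap k K κ * H) * (1 - H ^ 2) ^ 2) :
    a = 0 ∧ b1 + b2 = 0 ∧ B = 0 ∧ A = 0 := by
  have h1 : (nm (C a) (C b1) (C b2) (C B) (C c) (C A) X * C κ ^ 2 * (1 - (C κ * X) ^ 2) ^ 2 -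
      nm (C a) (C b1) (C b2) (C B) (C c) (C A) (C κ * X) * (1 - X ^ 2) ^ 2 : k[X]) = 0 :=
    transcendental_iff.1 hH _ (by
      rw [← sub_eq_zero] at h
      simpa only [nm, map_add, map_sub, map_mul, map_pow, map_one, aeval_C, aeval_X] using h)
  have h2 : 1 - κ ^ 2 ≠ 0 := fun h => hκ2 (by linear_combination -h)
  have h3 : κ - 1 ≠ 0 := fun h => hκ2 (by rw [sub_eq_zero.1 h]; simp)
  have e1 := congrArg (eval 1) h1
  have e2 := congrArg (eval (-1)) h1
  have e0 := congrArg (eval 0) h1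
  have e3 := congrArg (fun p => eval 0 (derivative p)) h1
  simp only [nm, eval_add, eval_sub, eval_mul, eval_pow, eval_one, eval_C, eval_X, eval_zero,
    derivative_add, derivative_sub, derivative_mul, derivative_pow, derivative_C, derivative_X,
    derivative_one, derivative_zero] at e1 e2 e0 e3
  refine ⟨?_, ?_, ?_, ?_⟩
  · have : a * (1 - κ ^ 2) = 0 := by linear_combination -e0
    simpa [h2] using this
  · have : (b1 + b2) * κ * (κ - 1) = 0 := by push_cast at e3; linear_combination e3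
    simpa [h3, hκ] using this
  · have : 16 * B * κ ^ 2 * (1 - κ ^ 2) ^ 2 = 0 := by linear_combination e1
    simpa [h2, hκ] using this
  · have : 16 * A * κ ^ 2 * (1 - κ ^ 2) ^ 2 = 0 := by linear_combination e2
    simpa [h2, hκ] using this

theorem nd_par [IsAlgClosed k] [CharZero k] (td : TD1 k K) (D : Derivation k K K)
    (hD : ∀ x, D x = 0 → ∃ a, algebraMap k K a = x) (J : QF k) {b1 b2 c : k} (hb1 : b1 ≠ 0)
    (hb2 : b2 ≠ 0) (hc : c ≠ 0) {t1 P1 t2 P2 f : K} (ht2 : t2 ≠ 0)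
    (h1 : P1 * (algebraMap k K b1 * t1 + algebraMap k K b2 / t1) = algebraMap k K c)
    (h2 : P2 * (algebraMap k K b1 * t2 + algebraMap k K b2 / t2) = algebraMap k K c)
    (hd1 : D t1 ≠ 0) (hex : P2 * D t2 / t2 - P1 * D t1 / t1 = D f)
    (hJ : J.val (t2, P2) = J.val (t1, P1)) (hT : D (J.val (t1, P1)) ≠ 0) :
    Iso J (t1, P1) (t2, P2) := by
  have : CharZero K := charZero_of_injective_algebraMap (algebraMap k K).injective
  have ht := transc_of_der D hd1
  have ht1 : t1 ≠ 0 := fun h => hd1 (by rw [h, map_zero])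
  obtain ⟨t0, ht0⟩ := IsAlgClosed.exists_pow_nat_eq (-b2 / b1) two_pos
  obtain rfl : b2 = -b1 * t0 ^ 2 := by rw [ht0]; field_simp
  have h00 : t0 ≠ 0 := by rintro rfl; simp at hb2
  simp only [map_mul, map_neg, map_pow] at h1 h2
  set s := algebraMap k K t0 with hs
  set b := algebraMap k K b1 with hb
  set g := algebraMap k K c with hg
  have s0 : s ≠ 0 := (_root_.map_ne_zero _).2 h00
  have b0 : b ≠ 0 := (_root_.map_ne_zero _).2 hb1
  have g0 : g ≠ 0 := (_root_.map_ne_zero _).2 hc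
  have Ds : D s = 0 := D.map_algebraMap t0
  have key : ∀ t P : K, t ≠ 0 → P * (b * t + -b * s ^ 2 / t) = g → ∃ H : K, H ≠ 0 ∧ 1 - H ≠ 0 ∧
      1 + H ≠ 0 ∧ t = s * (1 + H) / (1 - H) ∧ P = g * (1 - H ^ 2) / (4 * b * s * H) := by
    intro t P h0 h
    have h3 : P * b * ((t - s) * (t + s)) = g * t := by field_simp at h; linear_combination h
    have h4 : (t - s) * (t + s) ≠ 0 := fun h4 => mul_ne_zero g0 h0 (by rw [← h3, h4, mul_zero])
    have h5 := left_ne_zero_of_mul h4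
    have h6 := right_ne_zero_of_mul h4
    have h7 : 1 - (t - s) / (t + s) = 2 * s / (t + s) := by field_simp; ring
    have h8 : 1 + (t - s) / (t + s) = 2 * t / (t + s) := by field_simp; ring
    refine ⟨(t - s) / (t + s), div_ne_zero h5 h6, by rw [h7]; simp [s0, h6],
      by rw [h8]; simp [h0, h6],
      by rw [h7, h8]; field_simp, ?_⟩
    field_simp
    linear_combination 4 * s * h3
  obtain ⟨H1, a1, a2, a3, rfl, rfl⟩ := key t1 P1 ht1 h1
  obtain ⟨H2, c1, c2, c3, rfl, rfl⟩ := key t2 P2 ht2 h2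
  have dt : ∀ H : K, 1 - H ≠ 0 → D (s * (1 + H) / (1 - H)) = 2 * s * D H / (1 - H) ^ 2 := by
    intro H h
    simp only [Derivation.leibniz_div, Derivation.leibniz, map_add, map_sub, Ds,
      Derivation.map_one_eq_zero, smul_eq_mul]
    field_simp
    ring
  have q1 : ∀ H : K, 1 - H ^ 2 = (1 - H) * (1 + H) := fun H => by ring
  have hH : Transcendental k H1 := transc_of_der D fun h => hd1 (by rw [dt _ a2, h]; simp)
  obtain ⟨κ, hκ⟩ := hD (H2 / H1) (dlog td D (f := algebraMap k K (2 * b1 * t0 / c) * f) (by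
    rw [Derivation.leibniz, D.map_algebraMap, ← hex, dt _ a2, dt _ c2, Derivation.leibniz_div]
    simp only [smul_eq_mul, map_div₀, map_mul, map_ofNat, ← hs, ← hb, ← hg, q1]
    field_simp
    ring))
  have hκ0 : κ ≠ 0 := fun h => div_ne_zero c1 a1 (by rw [← hκ, h, map_zero])
  obtain rfl : H2 = algebraMap k K κ * H1 := by rw [hκ]; field_simp
  have hval : ∀ H : K, H ≠ 0 → 1 - H ≠ 0 → 1 + H ≠ 0 →
      J.val (s * (1 + H) / (1 - H), g * (1 - H ^ 2) / (4 * b * s * H)) =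
        nm (algebraMap k K (J.c0 * (c / (4 * b1 * t0)) ^ 2))
          (algebraMap k K (c / (4 * b1 * t0) * J.b1 * t0))
          (algebraMap k K (c / (4 * b1 * t0) * J.b2 / t0)) (algebraMap k K (J.B * t0 ^ 2))
          (algebraMap k K J.c1) (algebraMap k K (J.A / t0 ^ 2)) H / (H ^ 2 * (1 - H ^ 2) ^ 2) := by
    intro H e1 e2 e3
    simp only [QF.val, nm, map_mul, map_div₀, map_pow, map_ofNat, ← hs, ← hb, ← hg, q1]
    field_simp
  by_cases hκ2 : κ ^ 2 = 1
  · rcases sq_eq_sq_iff_eq_or_eq_neg.1 (hκ2.trans (one_pow 2).symm) with rfl | rfl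
    · simpa using iso_refl J _
    · simp only [map_neg, map_one, neg_mul, one_mul] at hJ ⊢
      have e1 : s * (1 + -H1) / (1 - -H1) = algebraMap k K (t0 ^ 2) / (s * (1 + H1) / (1 - H1)) := by
        rw [map_pow, ← hs, sub_neg_eq_add, ← sub_eq_add_neg]; field_simp
      have e2 : g * (1 - (-H1) ^ 2) / (4 * b * s * -H1) = -(g * (1 - H1 ^ 2) / (4 * b * s * H1)) := by
        field_simp
      rw [e1, e2] at hJ ⊢
      have h3 := relB J (pow_ne_zero 2 h00) ht hJ
      generalize s * (1 + H1) / (1 - H1) = t at *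
      generalize g * (1 - H1 ^ 2) / (4 * b * s * H1) = P at *
      obtain ⟨-, -, e3, -, e4⟩ := five ht (a0 := b1 * (J.A - (t0 ^ 2) ^ 2 * J.B) * t0 ^ 4) (a1 := 0)
        (a2 := -(2 * b1 * (J.A - (t0 ^ 2) ^ 2 * J.B) * t0 ^ 2) -
          c * t0 ^ 2 * (J.b2 + t0 ^ 2 * J.b1)) (a3 := 0) (a4 := b1 * (J.A - (t0 ^ 2) ^ 2 * J.B)) (by
        generalize J.A - (t0 ^ 2) ^ 2 * J.B = x at *
        generalize J.b2 + t0 ^ 2 * J.b1 = y at *
        simp only [map_mul, map_neg, map_zero, map_sub, map_pow, map_ofNat, ← hs, ← hb, ← hg] at h3 ⊢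
        field_simp at h1
        linear_combination -b * (t ^ 2 - s ^ 2) * h3 + s ^ 2 * algebraMap k K y * t * h1)
      have e5 := (mul_eq_zero.1 e4).resolve_left hb1
      rw [e5] at e3
      refine isoB J (pow_ne_zero 2 h00) ?_ (sub_eq_zero.1 e5) _ _
      simpa [hc, h00] using e3
  · exfalso
    have k0 := (_root_.map_ne_zero (algebraMap k K)).2 hκ0
    rw [hval _ a1 a2 a3] at hT hJ
    rw [hval _ c1 c2 c3, div_eq_div_iff (by rw [q1]; simp [c1, c2, c3]) (by rw [q1]; simp [a1, a2, a3])] at hJ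
    obtain ⟨e1, e2, e3, e4⟩ := nm_inv hH hκ0 hκ2
      (mul_left_cancel₀ (pow_ne_zero 2 a1) (by linear_combination -hJ))
    rw [e1, e3, e4, eq_neg_of_add_eq_zero_right e2] at hT
    refine hT ?_
    rw [← D.map_algebraMap (4 * (c / (4 * b1 * t0) * J.b1 * t0) + J.c1)]
    congr 1
    generalize c / (4 * b1 * t0) * J.b1 * t0 = x
    simp only [nm, map_zero, map_neg, map_add, map_mul, map_ofNat, q1]
    field_simp
    ring

lemma near_shift (O : ValuationSubring K) (hk : ∀ a : k, algebraMap k K a ∈ O) (μ ν : k)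
    {l1 l2 : K × K} (h1 : l1.1 ≠ 0) (h2 : l2.1 ≠ 0) (h : Near O l1 l2) :
    Near O (sA 1 μ ν l1) (sA 1 μ ν l2) := by
  obtain ⟨r1, r2, r3⟩ := h
  have r4 : l2.1 ∈ O := by simpa using O.sub_mem r1 (O.nonunits_le r2)
  simp only [Near, sA, map_one, one_mul]
  refine ⟨r1, r2, fun r5 => ?_⟩
  have e1 : ∀ l : K × K, l.1 ≠ 0 → l.1 * (l.2 + algebraMap k K μ * l.1 + algebraMap k K ν / l.1) =
      l.1 * l.2 + (algebraMap k K μ * l.1 ^ 2 + algebraMap k K ν) := fun l hl => by field_simp; ring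
  rw [e1 _ h1] at r5 ⊢
  have r6 := r3 (by simpa using sub_mem r5 (add_mem (mul_mem (hk μ) (pow_mem r1 2)) (hk ν)))
  rw [e1 _ h2, show ∀ a b c t u n : K, a + (c * t ^ 2 + n) - (b + (c * u ^ 2 + n)) =
    a - b + c * (t + u) * (t - u) from fun _ _ _ _ _ _ => by ring]
  refine add_mem r6 ?_
  rw [ValuationSubring.mem_nonunits_iff] at r2 ⊢
  rw [map_mul]
  exact mul_lt_one_of_nonneg_of_lt_one_right
    ((O.valuation_le_one_iff _).2 (mul_mem (hk μ) (add_mem r1 r4))) zero_le r2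

lemma ex_shift (D : Derivation k K K) (μ ν : k) {l1 l2 : K × K} {f : K} (h1 : l1.1 ≠ 0)
    (h2 : l2.1 ≠ 0) (hex : l2.2 * D l2.1 / l2.1 - l1.2 * D l1.1 / l1.1 = D f) :
    ∃ f', (sA 1 μ ν l2).2 * D l2.1 / l2.1 - (sA 1 μ ν l1).2 * D l1.1 / l1.1 = D f' := by
  refine ⟨f + algebraMap k K μ * (l2.1 - l1.1) - algebraMap k K ν * (l2.1⁻¹ - l1.1⁻¹), ?_⟩
  simp only [sA, map_add, map_sub, ← hex, Derivation.leibniz, Derivation.leibniz_inv,
    D.map_algebraMap, smul_eq_mul]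
  field_simp
  ring

/-- (ND) -/
theorem nd [IsAlgClosed k] [CharZero k] (td : TD1 k K) (D : Derivation k K K)
    (hD : ∀ x, D x = 0 → ∃ a, algebraMap k K a = x) (O : ValuationSubring K)
    (hk : ∀ a : k, algebraMap k K a ∈ O) (J J' : QF k) (c : k) (hre : Re J') (hc : lvD J' c ≠ 0)
    {l1 l2 : K × K} {f : K} (ht1 : l1.1 ≠ 0) (ht2 : l2.1 ≠ 0) (h1 : J'.val l1 = algebraMap k K c)
    (h2 : J'.val l2 = algebraMap k K c) (hJ : J.val l2 = J.val l1) (hT : D (J.val l1) ≠ 0)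
    (hex : l2.2 * D l2.1 / l2.1 - l1.2 * D l1.1 / l1.1 = D f)
    (hres : Near O l1 l2 ∨ Near O (sB (1 : k) 0 0 l1) (sB (1 : k) 0 0 l2)) : Iso J l1 l2 := by
  have : CharZero K := charZero_of_injective_algebraMap (algebraMap k K).injective
  have hs : ∀ (μ ν : k) (l : K × K), (sA 1 μ ν l).1 = l.1 := fun _ _ _ => by simp [sA]
  by_cases h0 : J'.c0 = 0
  · obtain ⟨hb1, hb2⟩ := hre.1 h0
    refine iso_shift J (J'.B / J'.b1) (J'.A / J'.b2) ht1 ?_
    obtain ⟨f', hf⟩ := ex_shift D (J'.B / J'.b1) (J'.A / J'.b2) ht1 ht2 hex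
    rw [← shift_val J (J'.B / J'.b1) (J'.A / J'.b2) ht1] at hT hJ
    rw [← shift_val J (J'.B / J'.b1) (J'.A / J'.b2) ht2] at hJ
    have hc' : c - (J'.c1 - J'.b1 * (J'.A / J'.b2) - J'.b2 * (J'.B / J'.b1)) ≠ 0 := fun h => hc (by
      rw [lvD, h0]; field_simp at h; linear_combination -h)
    have key : ∀ l : K × K, l.1 ≠ 0 → J'.val l = algebraMap k K c →
        (sA 1 (J'.B / J'.b1) (J'.A / J'.b2) l).2 *
          (algebraMap k K J'.b1 * l.1 + algebraMap k K J'.b2 / l.1) =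
        algebraMap k K (c - (J'.c1 - J'.b1 * (J'.A / J'.b2) - J'.b2 * (J'.B / J'.b1))) := by
      intro l hl h
      have e1 := (_root_.map_ne_zero (algebraMap k K)).2 hb1
      have e2 := (_root_.map_ne_zero (algebraMap k K)).2 hb2
      simp only [sA, map_sub, map_mul, map_div₀, ← h, QF.val, h0, map_zero]
      field_simp
      ring
    have e1 := key l1 ht1 h1
    have e2 := key l2 ht2 h2
    rw [← hs (J'.B / J'.b1) (J'.A / J'.b2) l1] at e1 hf ht1
    rw [← hs (J'.B / J'.b1) (J'.A / J'.b2) l2] at e2 hf ht2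
    generalize sA 1 (J'.B / J'.b1) (J'.A / J'.b2) l1 = m1 at *
    generalize sA 1 (J'.B / J'.b1) (J'.A / J'.b2) l2 = m2 at *
    refine nd_par td D hD _ hb1 hb2 hc' ht2 e1 e2 (fun hd => hT (der_val D _ hd ?_)) hf hJ hT
    have e3 := congrArg D e1
    have e4 : algebraMap k K J'.b1 * m1.1 + algebraMap k K J'.b2 / m1.1 ≠ 0 := fun h =>
      (_root_.map_ne_zero (algebraMap k K)).2 hc' (by rw [← e1, h, mul_zero])
    rw [D.map_algebraMap] at e3
    simpa [Derivation.leibniz, Derivation.leibniz_div, hd, e4] using e3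
  set μ := J'.b1 / (2 * J'.c0) with hμ
  set ν := J'.b2 / (2 * J'.c0) with hν
  refine iso_shift J μ ν ht1 ?_
  obtain ⟨f', hf⟩ := ex_shift D μ ν ht1 ht2 hex
  rw [← shift_val J μ ν ht1] at hT hJ
  rw [← shift_val J μ ν ht2] at hJ
  obtain ⟨A, hA⟩ : ∃ A, A = (4 * J'.c0 * J'.A - J'.b2 ^ 2) / (4 * J'.c0 ^ 2) := ⟨_, rfl⟩
  obtain ⟨B, hB⟩ : ∃ B, B = (4 * J'.c0 * J'.B - J'.b1 ^ 2) / (4 * J'.c0 ^ 2) := ⟨_, rfl⟩
  obtain ⟨g, hg⟩ : ∃ g, g = (c - J'.c1) / J'.c0 + J'.b1 * J'.b2 / (2 * J'.c0 ^ 2) := ⟨_, rfl⟩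
  have hc' : g ^ 2 ≠ 4 * A * B := fun h => hc (by
    rw [hA, hB, hg] at h
    refine mul_left_cancel₀ h0 ?_
    rw [lvD]; field_simp at h; linear_combination -h / 16)
  have hAB : A = 0 ↔ B = 0 := by simpa [hA, hB, h0, sub_eq_zero] using hre.2 h0
  have key : ∀ l : K × K, l.1 ≠ 0 → J'.val l = algebraMap k K c → (sA 1 μ ν l).2 ^ 2 +
      algebraMap k K B * l.1 ^ 2 + algebraMap k K A / l.1 ^ 2 = algebraMap k K g := by
    intro l hl h
    have e1 := (_root_.map_ne_zero (algebraMap k K)).2 h0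
    simp only [sA, hA, hB, hg, hμ, hν, map_sub, map_add, map_mul, map_div₀, map_pow, map_ofNat,
      ← h, QF.val]
    field_simp
    ring
  have e1 := key l1 ht1 h1
  have e2 := key l2 ht2 h2
  have hres' : Near O (sA 1 μ ν l1) (sA 1 μ ν l2) ∨
      Near O (sB (1 : k) 0 0 (sA 1 μ ν l1)) (sB (1 : k) 0 0 (sA 1 μ ν l2)) := by
    refine hres.imp (near_shift O hk μ ν ht1 ht2) fun h => ?_
    have e3 : ∀ l : K × K, sB (1 : k) 0 0 (sA 1 μ ν l) = sA 1 (-ν) (-μ) (sB (1 : k) 0 0 l) :=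
      fun l => by simp [sA, sB, div_eq_mul_inv]; ring
    rw [e3, e3]
    exact near_shift O hk _ _ (by simpa [sB] using ht1) (by simpa [sB] using ht2) h
  rw [← hs μ ν l1] at e1 hf ht1
  rw [← hs μ ν l2] at e2 hf ht2
  generalize sA 1 μ ν l1 = m1 at *
  generalize sA 1 μ ν l2 = m2 at *
  have hd : ∀ m : K × K, m.2 ^ 2 + algebraMap k K B * m.1 ^ 2 + algebraMap k K A / m.1 ^ 2 =
      algebraMap k K g → D ((shift J μ ν).val m) ≠ 0 → D m.1 ≠ 0 := fun m e h hd => by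
    refine h (der_val D _ hd ?_)
    have e3 := congrArg D e
    simp [Derivation.leibniz, Derivation.leibniz_div, Derivation.leibniz_pow, hd] at e3
    exact e3.elim (fun h => by rw [h, map_zero]) id
  have d1 := hd m1 e1 hT
  have d2 := hd m2 e2 (by rwa [hJ])
  by_cases hA0 : A = 0
  · have hB0 := hAB.1 hA0
    simp only [hA0, hB0, map_zero, zero_mul, zero_div, add_zero, mul_zero] at e1 e2 hc'
    exact nd_circ td D hD _ (fun h => hc' (by simp [h])) ht2 e1 e2 d1 hf hJ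
  have hB0 : B ≠ 0 := fun h => hA0 (hAB.2 h)
  suffices h : m2 = m1 by rw [h]; exact iso_refl _ _
  rcases hres' with ⟨r1, r2, r3⟩ | ⟨r1, r2, r3⟩
  · obtain ⟨e3, e4⟩ := nd_ell td D hD O hk hA0 hB0 hc' ht1 ht2 e1 e2 d1 d2 hf r1 r2 r3
    exact Prod.ext e3 e4
  · simp only [sB, map_one, map_zero, zero_mul, zero_div, add_zero, one_div] at r1 r2 r3
    obtain ⟨e3, e4⟩ := nd_ell td D hD O hk hB0 hA0 (c := g) (by rwa [mul_right_comm])
      (inv_ne_zero ht1) (inv_ne_zero ht2) (P1 := -m1.2) (P2 := -m2.2) (f := f')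
      (by rw [← e1]; field_simp; ring) (by rw [← e2]; field_simp; ring)
      (by simp [Derivation.leibniz_inv, ht1, d1]) (by simp [Derivation.leibniz_inv, ht2, d2])
      (by rw [← hf]; simp only [Derivation.leibniz_inv, smul_eq_mul]; field_simp) r1 r2 r3
    exact Prod.ext (inv_injective e3) (neg_injective e4)

lemma lvD_dQ (q : Conic k) : lvD q.dQ 0 = -16 * q.Δ ^ 2 := by
  simp only [lvD, Conic.dQ, Conic.Δ]; ring

lemma real_coef {τ : k →+* k} {q : Conic k} (h : RealC τ q.poly) : ∃ γ : k, γ ≠ 0 ∧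
    τ q.a = γ * q.c ∧ τ q.b = γ * q.b ∧ τ q.c = γ * q.a ∧ τ q.d = γ * q.e ∧ τ q.e = γ * q.d ∧
      τ q.f = γ * q.f := by
  obtain ⟨γ, h0, h⟩ := h
  have ev : ∀ x y : Polynomial k, _ := fun x y => congrArg (MvPolynomial.aeval ![x, y]) h
  simp only [Conic.poly, map_add, map_mul, map_pow, MvPolynomial.map_C, MvPolynomial.map_X,
    MvPolynomial.rename_C, MvPolynomial.rename_X, Equiv.swap_apply_left, Equiv.swap_apply_right,
    MvPolynomial.aeval_C, MvPolynomial.aeval_X, Matrix.cons_val_zero, Matrix.cons_val_one,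
    Polynomial.algebraMap_eq] at ev
  have e := ev (X ^ 3) X
  have e' : (C (τ q.f) + C (τ q.d) * X + C (τ q.a) * X ^ 2 + C (τ q.e) * X ^ 3 + C (τ q.b) * X ^ 4 +
      C (τ q.c) * X ^ 6 : k[X]) = C (γ * q.f) + C (γ * q.e) * X + C (γ * q.c) * X ^ 2 +
      C (γ * q.d) * X ^ 3 + C (γ * q.b) * X ^ 4 + C (γ * q.a) * X ^ 6 := by
    simp only [map_mul]; linear_combination e
  refine ⟨γ, h0, ?_, ?_, ?_, ?_, ?_, ?_⟩
  · simpa only [coeff_add, coeff_C_mul, coeff_X_pow, coeff_X, coeff_C, reduceIte, Nat.reduceEqDiff,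
      mul_one, mul_zero, add_zero, zero_add] using congrArg (coeff · 2) e'
  · simpa only [coeff_add, coeff_C_mul, coeff_X_pow, coeff_X, coeff_C, reduceIte, Nat.reduceEqDiff,
      mul_one, mul_zero, add_zero, zero_add] using congrArg (coeff · 4) e'
  · simpa only [coeff_add, coeff_C_mul, coeff_X_pow, coeff_X, coeff_C, reduceIte, Nat.reduceEqDiff,
      mul_one, mul_zero, add_zero, zero_add] using congrArg (coeff · 6) e'
  · simpa only [coeff_add, coeff_C_mul, coeff_X_pow, coeff_X, coeff_C, reduceIte, Nat.reduceEqDiff,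
      mul_one, mul_zero, add_zero, zero_add] using congrArg (coeff · 1) e'
  · simpa only [coeff_add, coeff_C_mul, coeff_X_pow, coeff_X, coeff_C, reduceIte, Nat.reduceEqDiff,
      mul_one, mul_zero, add_zero, zero_add] using congrArg (coeff · 3) e'
  · simpa only [coeff_add, coeff_C_mul, coeff_X_pow, coeff_X, coeff_C, reduceIte, Nat.reduceEqDiff,
      mul_one, mul_zero, add_zero, zero_add] using congrArg (coeff · 0) e'

/-- the discriminant form of a real nondegenerate conic satisfies `Re` -/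
theorem re_dQ [CharZero k] {τ : k →+* k} {q : Conic k} (h : RealC τ q.poly) (hΔ : q.Δ ≠ 0) :
    Re q.dQ := by
  obtain ⟨γ, h0, ha, hb, hc, hd, he, hf⟩ := real_coef h
  have t1 : τ q.dQ.b1 = -γ ^ 2 * q.dQ.b2 := by
    simp only [Conic.dQ, map_sub, map_mul, map_ofNat, ha, hb, hd, he]; ring
  have t2 : τ (4 * q.dQ.c0 * q.dQ.B - q.dQ.b1 ^ 2) = γ ^ 4 * (4 * q.dQ.c0 * q.dQ.A - q.dQ.b2 ^ 2) := by
    simp only [Conic.dQ, map_sub, map_mul, map_pow, map_ofNat, ha, hb, hc, hd, he, hf]; ring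
  have h1 : q.dQ.b1 = 0 ↔ q.dQ.b2 = 0 := by
    rw [← map_eq_zero τ, t1]; simp [h0]
  refine ⟨fun h2 => ?_, fun _ => ?_⟩
  · have h3 : q.dQ.b1 ≠ 0 := fun h3 => hΔ (by
      have := lvD_dQ q
      rw [lvD, h2, h3, h1.1 h3] at this
      simpa using this)
    exact ⟨h3, fun h4 => h3 (h1.2 h4)⟩
  · rw [← sub_eq_zero, ← sub_eq_zero (b := q.dQ.b1 ^ 2), ← map_eq_zero τ (a := _ - q.dQ.b1 ^ 2), t2]
    simp [h0]

end Ivrii.ND
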