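import Mathlib

set_option autoImplicit false

/-!
Non-exactness lemmas for section 5: descent of exactness, (NE), logarithmic differentials.
-/

namespace Ivrii.ND

open Polynomial IntermediateField

variable {k K : Type} [Field k] [Field K] [Algebra k K]

/-- If `D f` lies in a `D`-stable subfield over which `f` is algebraic, it is exact there. -/
lemma descent [CharZero K] (D : Derivation k K K) (S : IntermediateField k K)
    (hS : ∀ s ∈ S, D s ∈ S) {f : K} (hf : IsAlgebraic S f) (ha : D f ∈ S) :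
    ∃ g ∈ S, D g = D f := by
  have hi := hf.isIntegral
  set p := minpoly S f with hp
  have hm : p.Monic := minpoly.monic hi
  obtain ⟨n, hn⟩ : ∃ n, p.natDegree = n + 1 :=
    Nat.exists_eq_succ_of_ne_zero (minpoly.natDegree_pos hi).ne'
  let c : ℕ → S := fun i => ⟨D (p.coeff i), hS _ (p.coeff i).2⟩
  let q : S[X] := ∑ i ∈ Finset.range (n + 2), monomial i (c i) + C ⟨D f, ha⟩ * derivative p
  have hc : ∀ i, q.coeff i = c i + ⟨D f, ha⟩ * (p.coeff (i + 1) * (i + 1)) := fun i => by
    simp only [q, coeff_add, finsetSum_coeff, coeff_monomial, coeff_C_mul, coeff_derivative,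
      Finset.sum_ite_eq', Finset.mem_range]
    split_ifs with h
    · rfl
    · have : p.coeff i = 0 := coeff_eq_zero_of_natDegree_lt (by omega)
      have h2 : c i = 0 := Subtype.ext (by simp [c, this])
      rw [h2]
  have h1 : p.coeff (n + 1) = 1 := by rw [← hn]; exact hm.coeff_natDegree
  have h0 : aeval f q = 0 := by
    have h2 : aeval f p = 0 := minpoly.aeval S f
    have h3 : aeval f (derivative p) =
        ∑ i ∈ Finset.range (n + 2), (p.coeff i : K) * (i * f ^ (i - 1)) := by
      conv_lhs => rw [p.as_sum_range' (n + 2) (by omega)]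
      simp only [derivative_monomial, map_sum, aeval_monomial]
      refine Finset.sum_congr rfl fun i _ => ?_
      simp [mul_assoc]
    rw [aeval_eq_sum_range' (n := n + 2) (by omega)] at h2
    have h4 := congrArg D h2
    rw [map_zero, map_sum] at h4
    simp only [q, map_add, map_sum, aeval_monomial, map_mul, aeval_C, h3, Finset.mul_sum]
    rw [← Finset.sum_add_distrib, ← h4]
    refine Finset.sum_congr rfl fun i _ => ?_
    rw [Algebra.smul_def, Derivation.leibniz, Derivation.leibniz_pow]
    simp only [smul_eq_mul, nsmul_eq_mul, c, IntermediateField.algebraMap_apply]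
    ring
  have hq : q = 0 := by
    by_contra hq
    refine (minpoly.degree_le_of_ne_zero S f hq h0).not_gt ?_
    rw [← hp, degree_eq_natDegree hm.ne_zero, hn, degree_lt_iff_coeff_zero]
    intro m hm'
    have h5 : p.coeff (m + 1) = 0 := coeff_eq_zero_of_natDegree_lt (by omega)
    rw [hc, h5, zero_mul, mul_zero, add_zero]
    refine Subtype.ext ?_
    rcases hm'.eq_or_lt with h | h
    · simp [c, ← h, h1]
    · have : p.coeff m = 0 := coeff_eq_zero_of_natDegree_lt (by omega)
      simp [c, this]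
  have h6 := congrArg (fun x : S => (x : K)) (hc n)
  simp only [hq, coeff_zero, h1, c] at h6
  push_cast at h6
  have h7 : ((n : K) + 1) ≠ 0 := by exact_mod_cast n.succ_ne_zero
  refine ⟨-(p.coeff n) / (n + 1), S.div_mem (S.neg_mem (p.coeff n).2)
    (S.add_mem (_root_.natCast_mem S n) S.one_mem), ?_⟩
  have h8 : D ((n : K) + 1) = 0 := by simp
  rw [Derivation.leibniz_div_const _ _ _ h8, map_neg, smul_eq_mul]
  field_simp
  linear_combination h6

/-- a rational solution of `R β' + ρ R' β = N` is a polynomial -/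
lemma poly_sol [IsAlgClosed k] [CharZero k] {R N a b : k[X]} {ρ : k} (hR : R.Separable)
    (hρ : ∀ j : ℕ, ρ ≠ j + 1) (hab : IsCoprime a b) (hb : b ≠ 0)
    (h : R * (derivative a * b - a * derivative b) + C ρ * derivative R * a * b = N * b ^ 2) :
    b.degree = 0 := by
  by_contra hd
  obtain ⟨r, hr⟩ := IsAlgClosed.exists_root b hd
  obtain ⟨b1, hb1, hb2⟩ := exists_eq_pow_rootMultiplicity_mul_and_not_dvd b hb r
  obtain ⟨i, hi⟩ := Nat.exists_eq_succ_of_ne_zero ((rootMultiplicity_pos hb).2 hr).ne'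
  rw [hi, Nat.succ_eq_add_one] at hb1
  have ha : a.eval r ≠ 0 := fun h0 => by
    obtain ⟨u, v, huv⟩ := hab
    have := congrArg (eval r) huv
    simp [h0, hr.eq_zero] at this
  have hb3 : b1.eval r ≠ 0 := fun h0 => hb2 (dvd_iff_isRoot.2 h0)
  have hπ : (X - C r : k[X]) ≠ 0 := X_sub_C_ne_zero r
  have hd1 : derivative b = (X - C r) ^ i * (((i : k[X]) + 1) * b1 + (X - C r) * derivative b1) := by
    rw [hb1, derivative_mul, derivative_X_sub_C_pow]
    simp only [Nat.add_sub_cancel, Nat.cast_add, Nat.cast_one, map_add,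
      map_natCast, map_one]
    ring
  have h1 : R * (derivative a * (X - C r) * b1 - a * (((i : k[X]) + 1) * b1 + (X - C r) * derivative b1)) +
      C ρ * derivative R * a * (X - C r) * b1 = N * (X - C r) ^ (i + 2) * b1 ^ 2 := by
    refine mul_left_cancel₀ (pow_ne_zero i hπ) ?_
    rw [hd1] at h
    conv at h => rhs; rw [hb1]
    conv at h => lhs; congr; (· congr; (· skip); congr; (· rw [hb1])); (· rw [hb1])
    linear_combination h
  have hi1 : ((i : k) + 1) ≠ 0 := by exact_mod_cast i.succ_ne_zero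
  have h2 : R.eval r = 0 := by
    have := congrArg (eval r) h1
    simpa [ha, hb3, hi1] using this
  obtain ⟨R1, hR1⟩ := dvd_iff_isRoot.2 h2
  have hR2 : R1.eval r ≠ 0 := fun h0 => by
    obtain ⟨R2, hR2⟩ := dvd_iff_isRoot.2 h0
    refine not_isUnit_X_sub_C r (hR.squarefree _ ⟨R2, ?_⟩)
    rw [hR1, hR2, mul_assoc]
  have h3 : R1 * (derivative a * (X - C r) * b1 - a * (((i : k[X]) + 1) * b1 + (X - C r) * derivative b1)) +
      C ρ * (R1 + (X - C r) * derivative R1) * a * b1 = N * (X - C r) ^ (i + 1) * b1 ^ 2 := by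
    refine mul_left_cancel₀ hπ ?_
    rw [hR1] at h1
    simp only [derivative_mul, derivative_sub, derivative_X, derivative_C, sub_zero, one_mul] at h1
    linear_combination h1
  have h4 := congrArg (eval r) h3
  simp only [eval_add, eval_mul, eval_sub, eval_X, eval_C, sub_self, eval_pow, eval_natCast,
    eval_one] at h4
  have h5 : R1.eval r * a.eval r * b1.eval r * (ρ - (i + 1)) = 0 := by
    rw [zero_pow (by omega)] at h4
    linear_combination h4
  simp only [mul_eq_zero, hR2, ha, hb3, false_or] at h5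
  exact hρ i (sub_eq_zero.1 h5)

lemma exists_frac {u x : K} (hu : Transcendental k u) (hx : x ∈ k⟮u⟯) :
    ∃ a b : k[X], IsCoprime a b ∧ b ≠ 0 ∧ aeval u b ≠ 0 ∧ x = aeval u a / aeval u b := by
  classical
  have hinj := transcendental_iff_injective.1 hu
  obtain ⟨a, b, rfl⟩ := (mem_adjoin_simple_iff k x).1 hx
  by_cases hb : b = 0
  · exact ⟨0, 1, isCoprime_one_right, one_ne_zero, by simp, by simp [hb]⟩
  obtain ⟨a', b', h1, h2, h3⟩ := extract_gcd a b
  have hg : gcd a b ≠ 0 := fun h => hb (by rw [h2, h, zero_mul])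
  have hb' : b' ≠ 0 := fun h => hb (by rw [h2, h, mul_zero])
  refine ⟨a', b', (gcd_isUnit_iff _ _).1 h3, hb', (map_ne_zero_iff _ hinj).2 hb', ?_⟩
  conv_lhs => rw [h1]; rhs; rw [h2]
  rw [map_mul, map_mul, mul_div_mul_left _ _ ((map_ne_zero_iff _ hinj).2 hg)]

lemma der_adjoin (D : Derivation k K K) (S : IntermediateField k K) {u : K} (hu : u ∈ S)
    (hD : D u ∈ S) {x : K} (hx : x ∈ k⟮u⟯) : D x ∈ S := by
  have hle : k⟮u⟯ ≤ S := adjoin_simple_le_iff.2 hu
  obtain ⟨a, b, rfl⟩ := (mem_adjoin_simple_iff k x).1 hx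
  have h : ∀ a : k[X], aeval u a ∈ S := fun a =>
    hle ((mem_adjoin_simple_iff k _).2 ⟨a, 1, by simp⟩)
  rw [Derivation.leibniz_div, Derivation.map_aeval, Derivation.map_aeval]
  simp only [smul_eq_mul]
  exact S.mul_mem (_root_.pow_mem (S.inv_mem (h _)) 2)
    (S.sub_mem (S.mul_mem (h _) (S.mul_mem (h _) hD)) (S.mul_mem (h _) (S.mul_mem (h _) hD)))

/-- solutions in `k(u)` of `R β' + ρ R' β = N` are polynomials -/
lemma rat_sol [IsAlgClosed k] [CharZero k] (D : Derivation k K K) {u β : K}
    (hu : Transcendental k u) (hD : D u = 1) (hβ : β ∈ k⟮u⟯) {R N : k[X]} {ρ : k}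
    (hR : R.Separable) (hρ : ∀ j : ℕ, ρ ≠ j + 1)
    (h : aeval u R * D β + algebraMap k K ρ * aeval u (derivative R) * β = aeval u N) :
    ∃ a : k[X], R * derivative a + C ρ * derivative R * a = N := by
  have hinj := transcendental_iff_injective.1 hu
  obtain ⟨a, b, hab, hb, hb', rfl⟩ := exists_frac hu hβ
  rw [Derivation.leibniz_div, Derivation.map_aeval, Derivation.map_aeval, hD] at h
  have h1 : R * (derivative a * b - a * derivative b) + C ρ * derivative R * a * b = N * b ^ 2 := by
    apply hinj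
    simp only [smul_eq_mul, mul_one] at h
    simp only [map_add, map_mul, map_sub, aeval_C, map_pow]
    field_simp at h
    linear_combination h
  have h2 := poly_sol hR hρ hab hb h1
  rw [eq_C_of_degree_eq_zero h2] at h1 hb
  have h3 : b.coeff 0 ≠ 0 := fun h => hb (by rw [h, C_0])
  refine ⟨C (b.coeff 0)⁻¹ * a, mul_right_cancel₀ (pow_ne_zero 2 hb) ?_⟩
  have h4 : C (b.coeff 0)⁻¹ * C (b.coeff 0) = 1 := by rw [← C_mul, inv_mul_cancel₀ h3, C_1]
  simp only [derivative_mul, derivative_C, zero_mul, zero_add, mul_zero, sub_zero] at h1 ⊢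
  linear_combination h1 + (R * derivative a + C ρ * derivative R * a) * C (b.coeff 0) * h4

/-- transcendence degree at most one -/
def TD1 (k K : Type) [Field k] [Field K] [Algebra k K] : Prop :=
  ∀ u : K, Transcendental k u → ∀ f : K, IsAlgebraic k⟮u⟯ f

lemma transc_of_der [IsAlgClosed k] (D : Derivation k K K) {u : K} (h : D u ≠ 0) :
    Transcendental k u := fun hu => by
  obtain ⟨a, rfl⟩ := minpoly.mem_range_of_degree_eq_one k u
    (IsAlgClosed.degree_eq_one_of_irreducible k (minpoly.irreducible hu.isIntegral))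
  exact h (D.map_algebraMap a)

/-- a logarithmic differential is exact only if it vanishes -/
theorem dlog [IsAlgClosed k] [CharZero k] (td : TD1 k K) (D : Derivation k K K) {v f : K}
    (h : D v = v * D f) : D v = 0 := by
  have : CharZero K := charZero_of_injective_algebraMap (algebraMap k K).injective
  by_contra h0
  have hu := transc_of_der D h0
  have hv : v ≠ 0 := fun h1 => h0 (by rw [h1, map_zero])
  let δ : Derivation k K K := (D v)⁻¹ • D
  have h1 : δ v = 1 := by simp [δ, h0]
  have h2 : δ f = v⁻¹ := by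
    have : D f ≠ 0 := fun h1 => h0 (by rw [h, h1, mul_zero])
    simp only [δ, Derivation.smul_apply, smul_eq_mul]
    rw [h]; field_simp
  have hm := mem_adjoin_simple_self k v
  obtain ⟨g, hg, hg'⟩ := descent δ k⟮v⟯
    (fun s hs => der_adjoin δ _ hm (by rw [h1]; exact one_mem _) hs) (td v hu f)
    (by rw [h2]; exact inv_mem hm)
  obtain ⟨a, ha⟩ := rat_sol δ hu h1 hg (R := X) (N := 1) (ρ := 0) separable_X
    (fun j => by exact_mod_cast j.succ_ne_zero.symm) (by simp [hg', h2, hv])
  have := congrArg (eval 0) ha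
  simp at this

/-- (NE): `N(u) du / √R(u)` is not exact -/
theorem ne_exact [IsAlgClosed k] [CharZero k] (td : TD1 k K) (D : Derivation k K K)
    {R N : k[X]} (hR : R.Separable) (hR4 : R.natDegree = 4) (hN : N ≠ 0) (hN2 : N.natDegree ≤ 2)
    {u y f : K} (hy : y ^ 2 = aeval u R) (h : y * D f = aeval u N * D u) : D u = 0 := by
  have : CharZero K := charZero_of_injective_algebraMap (algebraMap k K).injective
  by_contra h0
  have hu := transc_of_der D h0
  have hinj := transcendental_iff_injective.1 hu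
  have hR0 : R ≠ 0 := by rintro rfl; simp at hR4
  have hRu : aeval u R ≠ 0 := (map_ne_zero_iff _ hinj).2 hR0
  have hy0 : y ≠ 0 := fun h1 => hRu (by rw [← hy, h1]; simp)
  let δ : Derivation k K K := (D u)⁻¹ • D
  have h1 : δ u = 1 := by simp [δ, h0]
  have h2 : δ f = aeval u N / aeval u R * y := by
    simp only [δ, Derivation.smul_apply, smul_eq_mul]
    rw [← hy]; field_simp
    linear_combination h
  have h3 : δ y = aeval u (derivative R) / (2 * aeval u R) * y := by
    have := congrArg δ hy
    rw [Derivation.leibniz_pow, Derivation.map_aeval, h1] at this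
    simp only [smul_eq_mul, nsmul_eq_mul, mul_one] at this
    rw [← hy]; field_simp
    linear_combination this
  have hm := mem_adjoin_simple_self k u
  have hp : ∀ a : k[X], aeval u a ∈ k⟮u⟯ := fun a => (mem_adjoin_simple_iff k _).2 ⟨a, 1, by simp⟩
  have hst : ∀ s ∈ k⟮u⟯, δ s ∈ k⟮u⟯ := fun s hs =>
    der_adjoin δ _ hm (by rw [h1]; exact one_mem _) hs
  have hns : y ∉ k⟮u⟯ := fun hy' => by
    obtain ⟨a, b, hab, hb, hb', rfl⟩ := exists_frac hu hy'
    have h4 : a ^ 2 = R * b ^ 2 := by
      apply hinj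
      simp only [map_mul, map_pow]
      rw [← hy]; field_simp
    have h5 : IsUnit (b * b) → False := fun h5 => by
      have h6 : R ∣ a * a := ⟨b ^ 2, by rw [← h4, sq]⟩
      obtain ⟨c, hc⟩ := (hR.squarefree.dvd_pow_iff_dvd two_ne_zero).1 ⟨_, h4⟩
      have h7 : R * c ^ 2 = b * b := mul_left_cancel₀ hR0 (by rw [hc] at h4; linear_combination h4)
      have := natDegree_eq_zero_of_isUnit (isUnit_of_mul_isUnit_left (h7 ▸ h5))
      omega
    have h8 : IsUnit b := hab.symm.isUnit_of_dvd' dvd_rfl
      ((UniqueFactorizationMonoid.pow_dvd_pow_iff_dvd two_ne_zero).1 ⟨R, by rw [h4, mul_comm]⟩)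
    exact h5 (h8.mul h8)
  have hli : ∀ α ∈ k⟮u⟯, ∀ β ∈ k⟮u⟯, α + β * y = 0 → β = 0 := fun α hα β hβ h4 => by
    by_contra h5
    refine hns ?_
    rw [show y = -α / β by field_simp; linear_combination h4]
    exact div_mem (neg_mem hα) hβ
  let T : IntermediateField k K :=
    { carrier := {x | ∃ α ∈ k⟮u⟯, ∃ β ∈ k⟮u⟯, x = α + β * y}
      mul_mem' := by
        rintro _ _ ⟨α, hα, β, hβ, rfl⟩ ⟨α', hα', β', hβ', rfl⟩
        exact ⟨α * α' + β * β' * aeval u R, add_mem (mul_mem hα hα') (mul_mem (mul_mem hβ hβ') (hp _)),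
          α * β' + β * α', add_mem (mul_mem hα hβ') (mul_mem hβ hα'), by rw [← hy]; ring⟩
      add_mem' := by
        rintro _ _ ⟨α, hα, β, hβ, rfl⟩ ⟨α', hα', β', hβ', rfl⟩
        exact ⟨α + α', add_mem hα hα', β + β', add_mem hβ hβ', by ring⟩
      algebraMap_mem' := fun r => ⟨_, IntermediateField.algebraMap_mem _ r, 0, zero_mem _, by simp⟩
      inv_mem' := by
        rintro _ ⟨α, hα, β, hβ, rfl⟩
        have hn : α ^ 2 - β ^ 2 * aeval u R ∈ k⟮u⟯ :=
          sub_mem (pow_mem hα 2) (mul_mem (pow_mem hβ 2) (hp _))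
        refine ⟨α / (α ^ 2 - β ^ 2 * aeval u R), div_mem hα hn, -β / (α ^ 2 - β ^ 2 * aeval u R),
          div_mem (neg_mem hβ) hn, ?_⟩
        by_cases hβ0 : β = 0
        · simp [hβ0, sq]
        have h4 : α + β * y ≠ 0 := fun h4 => hβ0 (hli _ hα _ hβ h4)
        have h5 : α - β * y ≠ 0 := fun h5 =>
          hβ0 (neg_eq_zero.1 (hli _ hα _ (neg_mem hβ) (by linear_combination h5)))
        rw [show α ^ 2 - β ^ 2 * aeval u R = (α + β * y) * (α - β * y) by rw [← hy]; ring]
        field_simp
        ring }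
  have h2R : 2 * aeval u R ∈ k⟮u⟯ := mul_mem (ofNat_mem _ 2) (hp _)
  have hδ : ∀ α β : K, δ (α + β * y) =
      δ α + (δ β + β * (aeval u (derivative R) / (2 * aeval u R))) * y := fun α β => by
    rw [map_add, Derivation.leibniz, h3]; simp only [smul_eq_mul]; ring
  obtain ⟨_, ⟨α, hα, β, hβ, rfl⟩, hg⟩ := descent δ T (by
      rintro _ ⟨α, hα, β, hβ, rfl⟩
      exact ⟨_, hst _ hα, _, add_mem (hst _ hβ) (mul_mem hβ (div_mem (hp _) h2R)), hδ α β⟩)
    (f := f) ((td u hu f).tower_top_of_subalgebra_le (A := k⟮u⟯.toSubalgebra) (B := T.toSubalgebra)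
      fun x hx => ⟨x, hx, 0, zero_mem _, by simp⟩)
    ⟨0, zero_mem _, _, div_mem (hp N) (hp R), by rw [h2, zero_add]⟩
  rw [hδ, h2] at hg
  have h4 := hli _ (hst _ hα) _ (sub_mem (add_mem (hst _ hβ) (mul_mem hβ (div_mem (hp (derivative R)) h2R)))
    (div_mem (hp N) (hp R))) (by linear_combination hg)
  obtain ⟨a, ha⟩ := rat_sol δ hu h1 hβ (N := N) (ρ := 1 / 2) hR
    (fun j h => by
      have : ((2 * j + 1 : ℕ) : k) = 0 := by push_cast; linear_combination -2 * h
      exact absurd (Nat.cast_eq_zero.1 this) (by omega))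
    (by
      simp only [map_div₀, map_one, map_ofNat]
      field_simp at h4 ⊢
      linear_combination h4)
  have ha0 : a ≠ 0 := by rintro rfl; exact hN (by simpa using ha.symm)
  have h5 := congrArg (coeff · (a.natDegree + 3)) ha
  have h6 : N.coeff (a.natDegree + 3) = 0 := coeff_eq_zero_of_natDegree_lt (by omega)
  have h7 : (R * derivative a).coeff (a.natDegree + 3) =
      R.leadingCoeff * (a.leadingCoeff * a.natDegree) := by
    rcases Nat.eq_zero_or_eq_succ_pred a.natDegree with h | h
    · rw [eq_C_of_natDegree_eq_zero h]; simp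
    · have := coeff_mul_add_eq_of_natDegree_le (f := R) (g := derivative a) hR4.le
        (natDegree_derivative_le a)
      rw [show a.natDegree + 3 = 4 + (a.natDegree - 1) by omega, this, coeff_derivative,
        show a.natDegree - 1 + 1 = a.natDegree by omega, leadingCoeff, leadingCoeff, hR4]
      congr 2
      rw [← Nat.cast_succ]; congr 1; omega
  have h8 : (derivative R * a).coeff (a.natDegree + 3) = R.leadingCoeff * 4 * a.leadingCoeff := by
    have := coeff_mul_add_eq_of_natDegree_le (f := derivative R) (g := a) (df := 3)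
      ((natDegree_derivative_le R).trans (by omega)) le_rfl
    rw [add_comm, this, coeff_derivative, leadingCoeff, leadingCoeff, hR4]
    norm_num
  simp only [coeff_add, mul_assoc, coeff_C_mul, h6, h7, h8] at h5
  have h9 : R.leadingCoeff * a.leadingCoeff * ((a.natDegree + 2 : ℕ) : k) = 0 := by
    push_cast; linear_combination h5
  simp only [mul_eq_zero, leadingCoeff_eq_zero, hR0, ha0, false_or, Nat.cast_eq_zero] at h9
  omega

end Ivrii.ND
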